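import Pool.Agent.H228.RotEnd32

/-!
# Rotation symmetric bent cubic forms

If there is a homogeneous rotation symmetric bent function of degree `3` in `n` variables, then `32`
divides `n`.

Proof. Let `n = 2 m`. The form `f` vanishes on the subspace `U` of the vectors of period `m`, so it is
balanced on all other cosets of `U`, and it is quadratic on them. So on every coset `b + U` with `b`
outside `U` some translation by a vector of `U` complements `f`. If `n = 16 q` with `q` odd and `b`
has the period `16`, then the sum of the rotations of this vector by the multiples of `16` is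
a vector `v` of period `8` with the same property. So the restriction `g` of `f` to the vectors of period
`16`, which belongs to the span of the sums `∑ r, y r * y (r + s) * y (r + t)` over `ZMod 16`, is
complemented by a translation by a vector of period `8` on every nontrivial coset of the vectors
of period `8`. This is impossible already for the six cosets given by the antiperiodicities
`11111111`, `00110011`, `00010001`, `01110111`, `00001111`, `00101101`: modulo constants on the six
cosets these functions form a space of dimension `16`, which is checked simultaneously (with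
bit vectors of length `2 ^ 16`) by the kernel.
-/

set_option autoImplicit false

namespace Pool.Agent.Results.MP_b38f68_co.CubicForms32

open Pool.Agent.H228.Rot

/-- **No rotation symmetric bent cubic forms in `n` variables unless `32` divides `n`.** -/
theorem result (n : ℕ) (f : (Fin n → ZMod 2) → ZMod 2) (c : Finset (Fin n) → ZMod 2)
    (hc : ∀ S : Finset (Fin n), c S ≠ 0 → S.card = 3)
    (hf : ∀ x : Fin n → ZMod 2, f x = ∑ S : Finset (Fin n), c S * ∏ i ∈ S, x i)
    (hrot : ∀ x : Fin n → ZMod 2, f (x ∘ finRotate n) = f x)
    (hbent : ∀ a : Fin n → ZMod 2,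
      (∑ x : Fin n → ZMod 2, (-1 : ℤ) ^ (f x + ∑ i, a i * x i).val) ^ 2 = (2 : ℤ) ^ n) :
    32 ∣ n := by
  by_contra h32
  have hn0 : n ≠ 0 := by
    rintro rfl
    exact h32 (dvd_zero _)
  obtain ⟨k, rfl⟩ := Nat.exists_eq_succ_of_ne_zero hn0
  obtain ⟨t, ht⟩ := even_of_bent (f := f) hbent
  obtain ⟨h1, h2⟩ := transfer (f := f) hbent hrot hf
  have h3 : (∃ M q, (M = 1 ∨ M = 2 ∨ M = 4) ∧ k + 1 = 2 * (M * (2 * q + 1))) ∨
      ∃ q, k + 1 = 16 * (2 * q + 1) := by
    rcases Nat.even_or_odd t with ⟨t1, h⟩ | ⟨q, h⟩
    · rcases Nat.even_or_odd t1 with ⟨t2, h'⟩ | ⟨q, h'⟩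
      · rcases Nat.even_or_odd t2 with ⟨t3, h''⟩ | ⟨q, h''⟩
        · rcases Nat.even_or_odd t3 with ⟨t4, h'''⟩ | ⟨q, h'''⟩
          · exact absurd (by omega : 32 ∣ k + 1) h32
          · exact Or.inr ⟨q, by omega⟩
        · exact Or.inl ⟨4, q, by simp, by omega⟩
      · exact Or.inl ⟨2, q, by simp, by omega⟩
    · exact Or.inl ⟨1, q, by simp, by omega⟩
  rcases h3 with ⟨M, q, hM, hq⟩ | ⟨q, hq⟩
  · exact cubic_zmod (n := k + 1) (c := c) (fun S hS => hc S hS) h1 h2 hM hq
  · exact cubic16 (n := k + 1) (c := c) (fun S hS => hc S hS) h1 h2 hq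

end Pool.Agent.Results.MP_b38f68_co.CubicForms32
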